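import Pool.Agent.helper83.OD.Spec

set_option autoImplicit false

open Finset PowerSeries

noncomputable section

namespace Pool.Agent.OD

open Pool.Agent.EP

theorem EVO (hID : ID16_stmt) (hR5 : R5_stmt) (hR11 : R11_stmt) (hJP1 : JP1_stmt)
    (hJP2 : JP2_stmt) (hJN : JN_stmt) : EVO_stmt := by
  classical
  intro y M p hmem hex
  have hmem' := hmem
  rw [Finset.mem_product] at hmem
  obtain ⟨hM, hp⟩ := hmem
  obtain ⟨-, hMp, hM24⟩ := Finset.mem_filter.1 hM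
  obtain ⟨-, hpp, hp24⟩ := Finset.mem_filter.1 hp
  dsimp only at hMp hM24 hpp hp24
  have hp0 := hpp.pos
  have hM0 := hMp.pos
  have hno : ¬ ((∃ u : ℕ, M + 7 * p = 16 * u ^ 2) ∨
    (∃ u : ℕ, 16 * u ^ 2 < M ∧ p ∣ M - 16 * u ^ 2) ∨
    (∃ u : ℕ, 16 * u ^ 2 < 7 * p ∧ M ∣ 7 * p - 16 * u ^ 2)) := by
    intro h
    exact hex (Finset.mem_filter.2 ⟨hmem', h⟩)
  push Not at hno
  obtain ⟨hn1, hn2, hn3⟩ := hno
  have hid := hID (7 * p) (by omega) (M : ℤ)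
  rw [hR11 p hpp hp24, hR5 M hMp hM24, mul_one] at hid
  by_cases h1 : (∑ u ∈ uu ((M : ℤ) + (7 * p : ℕ)).toNat,
      JG ac (7 * p) ((M : ℤ) - 16 * (u : ℤ) ^ 2)) = 0
  · rw [h1, zero_add] at hid
    have h2 : (∑ u ∈ uu (7 * p), JG ac (7 * p - 16 * u ^ 2) (M : ℤ)) ≠ 0 := by
      rw [hid]; exact one_ne_zero
    obtain ⟨u, hu, hne⟩ := Finset.exists_ne_zero_of_sum_ne_zero h2
    obtain ⟨-, -, hule⟩ := Finset.mem_filter.1 hu
    have hlt : 16 * u ^ 2 < 7 * p := by omega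
    obtain ⟨s, hs, hs'⟩ := hJP2 (7 * p - 16 * u ^ 2) M hMp (by omega) (hn3 u hlt) hne
    exact ⟨s, hs, Or.inr (Or.inr ⟨u, hlt, hs'⟩)⟩
  · obtain ⟨u, hu, hne⟩ := Finset.exists_ne_zero_of_sum_ne_zero h1
    have hne0 : 16 * u ^ 2 ≠ M := by omega
    rcases lt_or_gt_of_ne hne0 with hlt | hgt
    · have hcast : (M : ℤ) - 16 * (u : ℤ) ^ 2 = ((M - 16 * u ^ 2 : ℕ) : ℤ) := by
        rw [Nat.cast_sub hlt.le]; push_cast; ring
      rw [hcast] at hne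
      obtain ⟨s, hs, hs'⟩ := hJP1 p (M - 16 * u ^ 2) hpp hp24 (by omega) (hn2 u hlt) hne
      rcases hs' with h | h
      · exact ⟨s, hs, Or.inl ⟨u, hlt, h⟩⟩
      · exact ⟨s, hs, Or.inr (Or.inl ⟨u, hlt, h⟩)⟩
    · exfalso
      have hneg : (M : ℤ) - 16 * (u : ℤ) ^ 2 < 0 := by
        have : ((16 * u ^ 2 : ℕ) : ℤ) > M := by exact_mod_cast hgt
        push_cast at this
        linarith
      rw [hJN (7 * p) _ (by omega) hneg] at hne
      split_ifs at hne with h3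
      · apply hn1 u
        have : ((M + 7 * p : ℕ) : ℤ) = ((16 * u ^ 2 : ℕ) : ℤ) := by
          push_cast at h3 ⊢; linarith
        exact_mod_cast this
      · exact hne rfl

end Pool.Agent.OD
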