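import Pool.Agent.helper83.OD.Spec

set_option autoImplicit false

open Finset PowerSeries

noncomputable section

namespace Pool.Agent.OD

open Pool.Agent.EP

/-- `vvx^5` has no negative part. -/
theorem ODR_neg (M : ℤ) (hM : M < 0) : (vvx ^ 5).coeff M = 0 := by
  have h1 : vvx ^ 5 = HahnSeries.single (5 : ℤ) (1 : ZMod 2) *
        HahnSeries.ofPowerSeries ℤ (ZMod 2)
          (PowerSeries.expand 24 (by norm_num) helper81.EE ^ 5) := by
    have e1 : HahnSeries.single (1 : ℤ) (1 : ZMod 2) ^ 5 =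
        HahnSeries.single (5 : ℤ) (1 : ZMod 2) := by
      rw [HahnSeries.single_pow]
      simp
    unfold vvx
    rw [mul_pow, e1, map_pow]
  have h3 := HahnSeries.coeff_single_mul_add (r := (1 : ZMod 2))
    (x := HahnSeries.ofPowerSeries ℤ (ZMod 2)
      (PowerSeries.expand 24 (by norm_num) helper81.EE ^ 5)) (a := M - 5) (b := (5 : ℤ))
  rw [one_mul, sub_add_cancel] at h3
  rw [h1, h3, PowerSeries.coeff_coe, if_pos (by omega)]

theorem ODR_mod {d : ℕ} (hd : Nat.Coprime d 6) : d % 2 = 1 ∧ d % 3 ≠ 0 := by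
  refine ⟨?_, ?_⟩
  · by_contra h
    have h2 : 2 ∣ d := by omega
    have h3 : 2 ∣ Nat.gcd d 6 := Nat.dvd_gcd h2 (by norm_num)
    rw [Nat.Coprime] at hd
    rw [hd] at h3
    omega
  · intro h
    have h2 : 3 ∣ d := by omega
    have h3 : 3 ∣ Nat.gcd d 6 := Nat.dvd_gcd h2 (by norm_num)
    rw [Nat.Coprime] at hd
    rw [hd] at h3
    omega

theorem ODR_cop {d : ℕ} (h2 : d % 2 = 1) (h3 : d % 3 ≠ 0) : Nat.Coprime d 6 := by
  have h8 : Nat.Coprime d 2 :=
    ((Nat.Prime.coprime_iff_not_dvd Nat.prime_two).2 (by omega)).symm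
  have h9 : Nat.Coprime d 3 :=
    ((Nat.Prime.coprime_iff_not_dvd Nat.prime_three).2 (by omega)).symm
  exact Nat.Coprime.mul_right h8 h9

theorem ODR_sq {d : ℕ} (hd : Nat.Coprime d 6) : d ^ 2 % 24 = 1 := by
  obtain ⟨h2, h3⟩ := ODR_mod hd
  have h4 : (d % 24) % 2 = 1 := by omega
  have h5 : (d % 24) % 3 ≠ 0 := by omega
  have h6 : d % 24 < 24 := Nat.mod_lt _ (by norm_num)
  rw [Nat.pow_mod]
  generalize d % 24 = r at h4 h5 h6
  interval_cases r <;> simp_all

/-- The support of the series. -/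
theorem ODR_supp (n : ℕ) (hn : n % 24 = 11) (M : ℤ) (h : JG ac n M ≠ 0) : M % 24 = 13 := by
  unfold JG at h
  obtain ⟨d, hd, hac⟩ := Finset.exists_ne_zero_of_sum_ne_zero h
  obtain ⟨hdn, hdM⟩ := Finset.mem_filter.1 hd
  have hdn' : d ∣ n := Nat.dvd_of_mem_divisors hdn
  have hnc : Nat.Coprime n 6 := ODR_cop (by omega) (by omega)
  have hdc : Nat.Coprime d 6 := Nat.Coprime.coprime_dvd_left hdn' hnc
  have hsq := ODR_sq hdc
  have hd0 : 0 < d := by
    rcases Nat.eq_zero_or_pos d with h0 | h0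
    · rw [h0] at hsq; norm_num at hsq
    · exact h0
  obtain ⟨a, ha⟩ := hdn'
  obtain ⟨b, hb⟩ := hdM
  have e1 : (n : ℤ) * M / (d : ℤ) ^ 2 = a * b := by
    have : (n : ℤ) * M = (d : ℤ) ^ 2 * (a * b) := by
      rw [hb, ha]; push_cast; ring
    rw [this, Int.mul_ediv_cancel_left]
    have : (d : ℤ) ≠ 0 := by omega
    positivity
  rw [e1] at hac
  have h23 : ((a : ℤ) * b) % 24 = 23 := by
    unfold ac at hac
    split_ifs at hac with h1
    · exact h1.1
    · exact absurd rfl hac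
  have h1 : ((n : ℤ) * M) % 24 = 23 := by
    have e2 : (n : ℤ) * M = (d : ℤ) ^ 2 * (a * b) := by
      rw [hb, ha]; push_cast; ring
    have e3 : ((d : ℤ) ^ 2) % 24 = 1 := by
      have : ((d ^ 2 : ℕ) : ℤ) % 24 = ((1 : ℕ) : ℤ) := by
        rw [← hsq]; push_cast; rfl
      push_cast at this
      exact this
    rw [e2, Int.mul_emod, e3, h23]
    norm_num
  have h2 : ((n : ℤ) * M) % 24 = (11 * (M % 24)) % 24 := by
    rw [Int.mul_emod]
    have : (n : ℤ) % 24 = 11 := by omega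
    rw [this]
  omega

theorem ODR_u {n u : ℕ} (hn : n % 24 = 11) (hu : u ∈ uu n) : 16 * u ^ 2 < n ∧
    Nat.Coprime (n - 16 * u ^ 2) 6 ∧ ((n - 16 * u ^ 2 : ℕ) : ℤ) = n - 16 * (u : ℤ) ^ 2 := by
  obtain ⟨-, hc, hle⟩ := Finset.mem_filter.1 hu
  have hsq := ODR_sq hc
  have hlt : 16 * u ^ 2 < n := by omega
  refine ⟨hlt, ODR_cop (by omega) (by omega), ?_⟩
  rw [Nat.cast_sub hlt.le]
  push_cast
  ring

theorem ODR (hV16 : V16_stmt) (hSPL : SPL_stmt) (hJW : JW_stmt) (hJN : JN_stmt)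
    (hNEG : NEG_stmt) : ODR_stmt := by
  classical
  intro n hn
  have hnc : Nat.Coprime n 6 := ODR_cop (by omega) (by omega)
  have hn0 : 0 < n := by omega
  obtain ⟨f, hfW, hf⟩ := hJW n hn0 hnc
  have hf0 : ∀ N : ℤ, N < -(n : ℤ) → f.coeff N = 0 := by
    intro N hN
    rw [hf N, hJN n N hn0 (by omega), if_neg (by omega)]
  obtain ⟨g, hgW, c, hg⟩ := hSPL f hfW (fun M hM => ODR_supp n hn M (by rw [← hf M]; exact hM))
  have hex : ∀ u : ℕ, ∃ q : KK, u ∈ uu n →
      q ∈ WW ∧ ∀ M : ℤ, q.coeff M = JG ac (n - 16 * u ^ 2) M := by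
    intro u
    by_cases hu : u ∈ uu n
    · obtain ⟨h1, h2, -⟩ := ODR_u hn hu
      obtain ⟨q, hq, hq'⟩ := hJW _ (by omega) h2
      exact ⟨q, fun _ => ⟨hq, hq'⟩⟩
    · exact ⟨0, fun h => absurd h hu⟩
  choose q hq using hex
  set F : KK := g + ∑ u ∈ uu n, q u with hF
  have hFW : F ∈ WW :=
    Submodule.add_mem _ hgW (Submodule.sum_mem _ fun u hu => (hq u hu).1)
  have hgc : ∀ M : ℤ, g.coeff M = (∑ u ∈ uu (M + n).toNat, JG ac n (M - 16 * (u : ℤ) ^ 2)) -
      c * (vvx ^ 5).coeff M := by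
    intro M
    have h1 : g = f * vvx ^ 16 - c • vvx ^ 5 := by rw [hg]; abel
    rw [h1, HahnSeries.coeff_sub, hV16 n f hf0 M, HahnSeries.coeff_smul, smul_eq_mul]
    congr 1
    exact Finset.sum_congr rfl fun u _ => hf _
  have hFc : ∀ M : ℤ, F.coeff M = g.coeff M + ∑ u ∈ uu n, JG ac (n - 16 * u ^ 2) M := by
    intro M
    rw [hF, HahnSeries.coeff_add, HahnSeries.coeff_sum]
    congr 1
    exact Finset.sum_congr rfl fun u hu => (hq u hu).2 M
  have hneg : ∀ M : ℤ, M < 0 → F.coeff M = 0 := by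
    intro M hM
    rw [hFc, hgc, ODR_neg M hM, mul_zero, sub_zero]
    have e1 : ∑ u ∈ uu (M + n).toNat, JG ac n (M - 16 * (u : ℤ) ^ 2) =
        ∑ u ∈ uu (M + n).toNat, if 16 * (u : ℤ) ^ 2 = M + n then (1 : ZMod 2) else 0 := by
      refine Finset.sum_congr rfl fun u _ => ?_
      have hsq : 0 ≤ 16 * (u : ℤ) ^ 2 := by positivity
      rw [hJN n _ hn0 (by omega)]
      have hiff : (M - 16 * (u : ℤ) ^ 2 = -(n : ℤ)) ↔ 16 * (u : ℤ) ^ 2 = M + n := by
        constructor <;> intro h <;> linarith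
      simp only [hiff]
    have e2 : ∑ u ∈ uu n, JG ac (n - 16 * u ^ 2) M =
        ∑ u ∈ uu n, if 16 * (u : ℤ) ^ 2 = M + n then (1 : ZMod 2) else 0 := by
      refine Finset.sum_congr rfl fun u hu => ?_
      obtain ⟨h1, -, h3⟩ := ODR_u hn hu
      rw [hJN _ M (by omega) hM, h3]
      have hiff : (M = -((n : ℤ) - 16 * (u : ℤ) ^ 2)) ↔ 16 * (u : ℤ) ^ 2 = M + n := by
        constructor <;> intro h <;> linarith
      simp only [hiff]
    have e3 : (uu (M + n).toNat).filter (fun u : ℕ => 16 * (u : ℤ) ^ 2 = M + n) =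
        (uu n).filter (fun u : ℕ => 16 * (u : ℤ) ^ 2 = M + n) := by
      ext u
      simp only [uu, Finset.mem_filter, Finset.mem_range]
      constructor
      · rintro ⟨⟨h1, h2, h3⟩, h4⟩
        have h5 : 16 * u ^ 2 ≤ n := by
          have : ((16 * u ^ 2 : ℕ) : ℤ) ≤ n := by push_cast; omega
          exact_mod_cast this
        exact ⟨⟨by omega, h2, h5⟩, h4⟩
      · rintro ⟨⟨h1, h2, h3⟩, h4⟩
        have h5 : 16 * u ^ 2 = (M + n).toNat := by
          have : ((16 * u ^ 2 : ℕ) : ℤ) = M + n := by push_cast; exact h4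
          omega
        refine ⟨⟨?_, h2, h5.le⟩, h4⟩
        rw [← h5]
        nlinarith
    rw [e1, e2, ← Finset.sum_filter, ← Finset.sum_filter, e3]
    exact CharTwo.add_self_eq_zero _
  have hF0 : F = 0 := hNEG F hFW hneg
  refine ⟨c, fun M => ?_⟩
  have h1 := hFc M
  rw [hF0, HahnSeries.coeff_zero, hgc] at h1
  linear_combination -h1

end Pool.Agent.OD
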